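import Pool.Agent.H929.BG.Stm

/-!
# The recursion, independence (BG-RecS, helper297)
-/

set_option autoImplicit false

namespace Pool.Agent.H297.BG

open Finset Pool.Agent.TH3.IR Pool.Agent.Y55.Col Pool.Agent.H929.BW Pool.Agent.H929.BG

/-- either nothing, or points which are independent at all larger heights -/
def qq (n : ℕ) (H₀ : ℝ) (M : Multiset ℕ) (b : ℝ) : Prop :=
  (M = 0 ∧ b = 0) ∨ (1 ≤ b ∧ ∀ H, H₀ < H → PS n M b H)

theorem qq_of (h2 : S_PSmono) {n : ℕ} {H₀ : ℝ} {M : Multiset ℕ} {b : ℝ} (hb : 5 / 2 ≤ b)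
    (h : PS n M b H₀) : qq n H₀ M b :=
  Or.inr ⟨by linarith, fun H hH => h2 n M M b H H₀ (by linarith) hH.le le_rfl h⟩

theorem qq_add (h1 : S_PSadd) {n : ℕ} {H₀ : ℝ} {M M' : Multiset ℕ} {a b : ℝ}
    (ha : qq n H₀ M a) (hb : qq n H₀ M' b) : qq n H₀ (M + M') (a + b) := by
  rcases ha with ⟨ha1, ha2⟩ | ⟨ha1, ha2⟩
  · rw [ha1, ha2, zero_add, zero_add]
    exact hb
  · rcases hb with ⟨hb1, hb2⟩ | ⟨hb1, hb2⟩
    · rw [hb1, hb2, add_zero, add_zero]
      exact Or.inr ⟨ha1, ha2⟩
    · refine Or.inr ⟨by linarith, fun H hH => ?_⟩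
      exact h1 n M M' a b H ((H₀ + H) / 2) ha1 hb1 (by linarith) (ha2 _ (by linarith))
        (hb2 _ (by linarith))

theorem qq_sum (h1 : S_PSadd) {n : ℕ} {H₀ : ℝ} (s : Finset ℕ) (M : ℕ → Multiset ℕ) (b : ℕ → ℝ)
    (h : ∀ v ∈ s, qq n H₀ (M v) (b v)) : qq n H₀ (∑ v ∈ s, M v) (∑ v ∈ s, b v) := by
  induction s using Finset.induction_on with
  | empty => exact Or.inl ⟨by simp, by simp⟩
  | insert a s ha ih =>
    rw [Finset.sum_insert ha, Finset.sum_insert ha]
    exact qq_add h1 (h a (Finset.mem_insert_self _ _))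
      (ih fun v hv => h v (Finset.mem_insert_of_mem hv))

theorem pow_bound (n : ℕ) (hn : 1 ≤ n) : (2 : ℝ) ^ (n + 1) * (21 / 4) ≤ 3 ^ (n + 2) := by
  obtain ⟨k, rfl⟩ : ∃ k, n = k + 1 := ⟨n - 1, by omega⟩
  have h : (2 : ℝ) ^ k ≤ 3 ^ k := pow_le_pow_left₀ (by norm_num) (by norm_num) k
  have h0 : (0 : ℝ) < 2 ^ k := by positivity
  have e1 : (2 : ℝ) ^ (k + 1 + 1) * (21 / 4) = 21 * 2 ^ k := by ring
  have e2 : (3 : ℝ) ^ (k + 1 + 2) = 27 * 3 ^ k := by ring
  rw [e1, e2]
  linarith

/-- one step of the recursion -/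
theorem one_step (h1 : S_PSadd) (h2 : S_PSmono) (h3 : S_PSnode) (n : ℕ) (Λ C : ℝ) (hn : 1 ≤ n)
    (hΛ : 1 ≤ Λ) (hC : 0 ≤ C) (hStep : StepS n Λ C) (hFin : FinS n Λ C) (A : Finset ℕ)
    (r : ℕ → ℕ) (β h : ℕ → ℝ) (X : ℝ) (hD : Data n Λ A β h X)
    (hr : ∀ v ∈ A, r v = 0 ∨
      r v * gg n v ^ (n + 1) + C * (min X (h v)) ^ n ≤ β v * X ^ (n + 1))
    (IH : 24 * (1 + Λ) < X → ∀ (A' : Finset ℕ) (r' : ℕ → ℕ) (β' : ℕ → ℝ),
      Data n Λ A' β' h (X / 2) →
      (∀ v ∈ A', r' v = 0 ∨
        r' v * gg n v ^ (n + 1) + C * (min (X / 2) (h v)) ^ n ≤ β' v * (X / 2) ^ (n + 1)) →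
      PS n (∑ v ∈ A', Multiset.replicate (r' v) v) (∑ v ∈ A', β' v) (X / 2 - (4 * n + 5))) :
    PS n (∑ v ∈ A, Multiset.replicate (r v) v) (∑ v ∈ A, β v) (X - (4 * n + 5)) := by
  classical
  obtain ⟨v₀, hv₀⟩ := hD.ne
  have hX : 0 < X := by
    have := hD.big v₀ hv₀
    have := gg_nonneg n v₀
    linarith
  have hXn : 0 < X ^ (n + 1) := by positivity
  have hh : ∀ v ∈ A, 0 < h v := by
    intro v hv
    have := hD.hbig v hv
    have := gg_nonneg n v
    linarith
  have h2n : (1 : ℝ) ≤ 2 ^ (n + 1) := one_le_pow₀ (by norm_num)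
  have hpb := pow_bound n hn
  have hhalf : (2 : ℝ) ^ (n + 1) * (X / 2) ^ (n + 1) = X ^ (n + 1) := by
    rw [← mul_pow]
    congr 1
    ring
  -- the parts
  have key : ∀ v ∈ A, ∃ (s : ℝ) (r₁ r₂ : ℕ),
      ((s = 0 ∧ r₁ = 0) ∨ (5 / 2 ≤ s ∧ PS n (Multiset.replicate r₁ v) s (X - (4 * n + 6)))) ∧
      r v ≤ r₁ + r₂ ∧
      (X ≤ 24 * (gg n v + Λ) → s = β v ∧ r₂ = 0) ∧
      (24 * (gg n v + Λ) < X →
        (r₂ = 0 ∨ r₂ * gg n v ^ (n + 1) + C * (min (X / 2) (h v)) ^ n ≤
          (β v - s) * X ^ (n + 1)) ∧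
        (X ≤ h v → 5 / 2 ≤ β v - s ∧ β v - s ≤ 21 / 4) ∧ (h v < X → s = 0)) := by
    intro v hv
    have hv1 := hD.one v hv
    rcases le_or_gt X (24 * (gg n v + Λ)) with hc | hc
    · -- finishing
      have hXh : X ≤ h v := hc.trans (hD.hbig v hv)
      obtain ⟨hb1, hb2⟩ := hD.used v hv hXh
      have hr' := hr v hv
      rw [min_eq_left hXh] at hr'
      have hPS := hFin v (r v) (β v) X hv1 hb1 hb2 (hD.big v hv) hc hr'
      exact ⟨β v, r v, 0, Or.inr ⟨hb1, hPS⟩, by omega, fun _ => ⟨rfl, rfl⟩,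
        fun hc' => absurd hc (not_le.2 hc')⟩
    · have hmin : min (X / 2) (h v) ≤ min X (h v) := min_le_min_right _ (by linarith)
      have hmin0 : 0 ≤ min (X / 2) (h v) := le_min (by linarith) (hh v hv).le
      have hpow : C * (min (X / 2) (h v)) ^ n ≤ C * (min X (h v)) ^ n :=
        mul_le_mul_of_nonneg_left (pow_le_pow_left₀ hmin0 hmin n) hC
      have triv : r v = 0 ∨ r v * gg n v ^ (n + 1) + C * (min (X / 2) (h v)) ^ n ≤
          (β v - 0) * X ^ (n + 1) := by
        rcases hr v hv with h0 | h0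
        · exact Or.inl h0
        · right
          rw [sub_zero]
          linarith
      rcases le_or_gt X (h v) with hXh | hXh
      · obtain ⟨hb1, hb2⟩ := hD.used v hv hXh
        rcases le_or_gt (21 / 4) (β v) with hb | hb
        · have hr' := hr v hv
          rw [min_eq_left hXh] at hr'
          obtain ⟨a, r₁, r₂, ha1, ha2, ha3, ha4, ha5, ha6⟩ :=
            hStep v (r v) (β v) X hv1 hb hb2 (hD.big v hv) hr'
          refine ⟨a, r₁, r₂, Or.inr ⟨ha1, ha5⟩, ha4, fun hc' => absurd hc' (not_le.2 hc),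
            fun _ => ⟨?_, fun _ => ⟨ha2, ha3⟩, fun hh' => absurd hXh (not_le.2 hh')⟩⟩
          rw [min_eq_left (by linarith)]
          exact ha6
        · exact ⟨0, 0, r v, Or.inl ⟨rfl, rfl⟩, by omega, fun hc' => absurd hc' (not_le.2 hc),
            fun _ => ⟨triv, fun _ => ⟨by linarith, by linarith⟩, fun _ => rfl⟩⟩
      · exact ⟨0, 0, r v, Or.inl ⟨rfl, rfl⟩, by omega, fun hc' => absurd hc' (not_le.2 hc),
          fun _ => ⟨triv, fun hh' => absurd hh' (not_le.2 hXh), fun _ => rfl⟩⟩
  choose! s r₁ r₂ hs using key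
  set A' : Finset ℕ := A.filter (fun v => 24 * (gg n v + Λ) < X) with hA'
  have memA' : ∀ v, v ∈ A' ↔ v ∈ A ∧ 24 * (gg n v + Λ) < X := fun v => by
    rw [hA', Finset.mem_filter]
  have offA' : ∀ v ∈ A, v ∉ A' → s v = β v ∧ r₂ v = 0 := by
    intro v hv hv'
    refine (hs v hv).2.2.1 ?_
    by_contra hc
    exact hv' ((memA' v).2 ⟨hv, not_le.1 hc⟩)
  have slope : ∑ v ∈ A, s v + ∑ v ∈ A', (β v - s v) = ∑ v ∈ A, β v := by
    have e : ∑ v ∈ A', (β v - s v) = ∑ v ∈ A, (β v - s v) := by
      refine Finset.sum_subset (Finset.filter_subset _ _) fun v hv hv' => ?_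
      rw [(offA' v hv hv').1, sub_self]
    rw [e, ← Finset.sum_add_distrib]
    exact Finset.sum_congr rfl fun v _ => by ring
  have parts : ∑ v ∈ A, Multiset.replicate (r v) v ≤
      ∑ v ∈ A, Multiset.replicate (r₁ v) v + ∑ v ∈ A', Multiset.replicate (r₂ v) v := by
    have e : ∑ v ∈ A', Multiset.replicate (r₂ v) v = ∑ v ∈ A, Multiset.replicate (r₂ v) v := by
      refine Finset.sum_subset (Finset.filter_subset _ _) fun v hv hv' => ?_
      rw [(offA' v hv hv').2, Multiset.replicate_zero]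
    rw [e, ← Finset.sum_add_distrib]
    refine Finset.sum_le_sum fun v hv => ?_
    rw [← Multiset.replicate_add]
    exact (Multiset.replicate_le_replicate v).2 (hs v hv).2.1
  -- the first parts
  have q1 : qq n (X - (4 * n + 6)) (∑ v ∈ A, Multiset.replicate (r₁ v) v) (∑ v ∈ A, s v) := by
    refine qq_sum h1 A _ _ fun v hv => ?_
    rcases (hs v hv).1 with ⟨e1, e2⟩ | ⟨e1, e2⟩
    · refine Or.inl ⟨?_, e1⟩
      rw [e2, Multiset.replicate_zero]
    · exact qq_of h2 e1 e2
  -- the terms of the rest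
  have term : ∀ v ∈ A', 0 ≤ β v - s v := by
    intro v hv
    obtain ⟨hvA, hvc⟩ := (memA' v).1 hv
    obtain ⟨_, hu1, hu2⟩ := (hs v hvA).2.2.2 hvc
    rcases le_or_gt X (h v) with hXh | hXh
    · linarith [(hu1 hXh).1]
    · rw [hu2 hXh, sub_zero]
      have e := hD.unused v hvA hXh
      have : 0 ≤ β v * X ^ (n + 1) := by
        rw [e]
        have := hh v hvA
        positivity
      exact nonneg_of_mul_nonneg_left this hXn
  -- the dichotomy
  have dich : A'.Nonempty → (∃ u ∈ A', X ≤ h u) ∨ X ^ (n + 1) ≤ ∑ u ∈ A', h u ^ (n + 1) := by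
    intro hne
    by_cases hex : ∃ u ∈ A', X ≤ h u
    · exact Or.inl hex
    · right
      by_cases hF : ∃ w ∈ A, w ∉ A'
      · have hFne : (A.filter (fun v => v ∉ A')).Nonempty := by
          obtain ⟨w, hw1, hw2⟩ := hF
          exact ⟨w, Finset.mem_filter.2 ⟨hw1, hw2⟩⟩
        set w := (A.filter (fun v => v ∉ A')).min' hFne with hw
        have hwF : w ∈ A.filter (fun v => v ∉ A') := Finset.min'_mem _ _
        obtain ⟨hwA, hwA'⟩ := Finset.mem_filter.1 hwF
        have hwX : X ≤ 24 * (gg n w + Λ) := by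
          by_contra hc
          exact hwA' ((memA' w).2 ⟨hwA, not_le.1 hc⟩)
        have hlow : low A w = A' := by
          ext u
          unfold low
          rw [Finset.mem_filter]
          constructor
          · rintro ⟨hu1, hu2⟩
            by_contra hu3
            have := Finset.min'_le (A.filter (fun v => v ∉ A')) u
              (Finset.mem_filter.2 ⟨hu1, hu3⟩)
            exact absurd this (not_le.2 hu2)
          · intro hu
            obtain ⟨hu1, hu2⟩ := (memA' u).1 hu
            refine ⟨hu1, ?_⟩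
            by_contra hu3
            have := gg_mono n (not_lt.1 hu3)
            linarith
        have hl := hD.lower w hwA (by rw [hlow]; exact hne)
        rw [hlow] at hl
        exact (pow_le_pow_left₀ hX.le hwX (n + 1)).trans hl
      · have hAA : A' = A := by
          refine Finset.Subset.antisymm (Finset.filter_subset _ _) fun v hv => ?_
          by_contra hv'
          exact hF ⟨v, hv, hv'⟩
        rw [hAA] at hex ⊢
        rcases hD.total with h0 | h0
        · exact absurd h0 hex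
        · exact h0
  -- the rest
  have q2 : qq n (X - (4 * n + 6)) (∑ v ∈ A', Multiset.replicate (r₂ v) v)
      (∑ v ∈ A', (β v - s v)) := by
    rcases Finset.eq_empty_or_nonempty A' with hE | hE
    · rw [hE]
      exact Or.inl ⟨by simp, by simp⟩
    · have hbig : 24 * (1 + Λ) < X := by
        obtain ⟨u, hu⟩ := hE
        obtain ⟨hu1, hu2⟩ := (memA' u).1 hu
        have e1 : (1 : ℝ) ≤ u := by exact_mod_cast hD.one u hu1
        have e2 := le_gg n u
        linarith
      have hlowA' : ∀ w ∈ A', low A' w = low A w := by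
        intro w hw
        ext u
        unfold low
        rw [Finset.mem_filter, Finset.mem_filter, Finset.mem_filter]
        constructor
        · rintro ⟨⟨hu1, _⟩, hu2⟩
          exact ⟨hu1, hu2⟩
        · rintro ⟨hu1, hu2⟩
          have e1 := gg_mono n hu2.le
          have e2 := ((memA' w).1 hw).2
          exact ⟨⟨hu1, by linarith⟩, hu2⟩
      have hData : Data n Λ A' (fun v => 2 ^ (n + 1) * (β v - s v)) h (X / 2) := by
        refine ⟨hE, fun v hv => hD.one v ((memA' v).1 hv).1, fun v hv => ?_,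
          fun v hv => hD.hbig v ((memA' v).1 hv).1, fun v hv hvh => ?_, fun v hv hvh => ?_,
          fun w hw hne => ?_, ?_⟩
        · linarith [((memA' v).1 hv).2]
        · obtain ⟨hvA, hvc⟩ := (memA' v).1 hv
          obtain ⟨_, hu1, hu2⟩ := (hs v hvA).2.2.2 hvc
          rcases le_or_gt X (h v) with hXh | hXh
          · obtain ⟨e1, e2⟩ := hu1 hXh
            constructor
            · show 5 / 2 ≤ 2 ^ (n + 1) * (β v - s v)
              nlinarith
            · show 2 ^ (n + 1) * (β v - s v) ≤ 3 ^ (n + 2)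
              refine le_trans (mul_le_mul_of_nonneg_left e2 (by positivity)) hpb
          · have e := hD.unused v hvA hXh
            have hs0 := hu2 hXh
            have hX2 : 0 < (X / 2) ^ (n + 1) := by positivity
            have e1 : 2 ^ (n + 1) * (β v - s v) * (X / 2) ^ (n + 1) = 5 / 2 * h v ^ (n + 1) := by
              rw [hs0, sub_zero, ← e, ← hhalf]
              ring
            have e2 : (X / 2) ^ (n + 1) ≤ h v ^ (n + 1) :=
              pow_le_pow_left₀ (by linarith) hvh _
            have e3 : h v ^ (n + 1) ≤ X ^ (n + 1) :=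
              pow_le_pow_left₀ (hh v hvA).le hXh.le _
            constructor
            · show 5 / 2 ≤ 2 ^ (n + 1) * (β v - s v)
              refine le_of_mul_le_mul_right ?_ hX2
              rw [e1]
              linarith
            · show 2 ^ (n + 1) * (β v - s v) ≤ 3 ^ (n + 2)
              refine le_of_mul_le_mul_right ?_ hX2
              rw [e1]
              have e4 : 5 / 2 * h v ^ (n + 1) ≤ 5 / 2 * (2 ^ (n + 1) * (X / 2) ^ (n + 1)) := by
                rw [hhalf]
                linarith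
              refine e4.trans ?_
              rw [← mul_assoc]
              refine mul_le_mul_of_nonneg_right ?_ hX2.le
              linarith
        · obtain ⟨hvA, hvc⟩ := (memA' v).1 hv
          obtain ⟨_, hu1, hu2⟩ := (hs v hvA).2.2.2 hvc
          have hXh : h v < X := by linarith
          show 2 ^ (n + 1) * (β v - s v) * (X / 2) ^ (n + 1) = 5 / 2 * h v ^ (n + 1)
          rw [hu2 hXh, sub_zero, ← hD.unused v hvA hXh, ← hhalf]
          ring
        · rw [hlowA' w hw] at hne ⊢
          exact hD.lower w ((memA' w).1 hw).1 hne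
        · rcases dich hE with ⟨u, hu1, hu2⟩ | h0
          · exact Or.inl ⟨u, hu1, by linarith⟩
          · right
            refine le_trans (pow_le_pow_left₀ (by linarith) (by linarith) _) h0
      have hcond : ∀ v ∈ A', r₂ v = 0 ∨
          r₂ v * gg n v ^ (n + 1) + C * (min (X / 2) (h v)) ^ n ≤
            (fun v => 2 ^ (n + 1) * (β v - s v)) v * (X / 2) ^ (n + 1) := by
        intro v hv
        obtain ⟨hvA, hvc⟩ := (memA' v).1 hv
        obtain ⟨hu0, _, _⟩ := (hs v hvA).2.2.2 hvc
        rcases hu0 with h0 | h0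
        · exact Or.inl h0
        · right
          refine h0.trans (le_of_eq ?_)
          show (β v - s v) * X ^ (n + 1) = 2 ^ (n + 1) * (β v - s v) * (X / 2) ^ (n + 1)
          rw [← hhalf]
          ring
      have hPS := IH hbig A' r₂ (fun v => 2 ^ (n + 1) * (β v - s v)) hData hcond
      have hb : 5 / 2 ≤ ∑ v ∈ A', (β v - s v) := by
        rcases dich hE with ⟨u, hu1, hu2⟩ | h0
        · obtain ⟨huA, huc⟩ := (memA' u).1 hu1
          obtain ⟨_, hw1, _⟩ := (hs u huA).2.2.2 huc
          exact (hw1 hu2).1.trans (Finset.single_le_sum (f := fun v => β v - s v) term hu1)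
        · by_cases hex : ∃ u ∈ A', X ≤ h u
          · obtain ⟨u, hu1, hu2⟩ := hex
            obtain ⟨huA, huc⟩ := (memA' u).1 hu1
            obtain ⟨_, hw1, _⟩ := (hs u huA).2.2.2 huc
            exact (hw1 hu2).1.trans (Finset.single_le_sum (f := fun v => β v - s v) term hu1)
          · have e1 : (∑ v ∈ A', (β v - s v)) * X ^ (n + 1) =
                5 / 2 * ∑ u ∈ A', h u ^ (n + 1) := by
              rw [Finset.sum_mul, Finset.mul_sum]
              refine Finset.sum_congr rfl fun v hv => ?_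
              obtain ⟨hvA, hvc⟩ := (memA' v).1 hv
              obtain ⟨_, _, hu2⟩ := (hs v hvA).2.2.2 hvc
              have hXh : h v < X := by
                by_contra hc
                exact hex ⟨v, hv, not_lt.1 hc⟩
              rw [hu2 hXh, sub_zero]
              exact hD.unused v hvA hXh
            refine le_of_mul_le_mul_right ?_ hXn
            rw [e1]
            linarith
      have e1 : ∑ v ∈ A', (fun v => 2 ^ (n + 1) * (β v - s v)) v =
          2 ^ (n + 1) * ∑ v ∈ A', (β v - s v) := by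
        rw [Finset.mul_sum]
      rw [e1] at hPS
      have e2 : X / 2 - (4 * n + 5) = (X - (4 * n + 6)) / 2 - 2 * ((n : ℝ) + 1) := by ring
      rw [e2] at hPS
      exact qq_of h2 hb (h3 n _ _ _ hb hPS)
  -- the sum
  have q3 := qq_add h1 q1 q2
  rw [slope] at q3
  have hpos : 0 < ∑ v ∈ A, β v := by
    have hnn : ∀ v ∈ A, 0 ≤ β v := by
      intro v hv
      rcases le_or_gt X (h v) with hXh | hXh
      · linarith [(hD.used v hv hXh).1]
      · have e := hD.unused v hv hXh
        have : 0 ≤ β v * X ^ (n + 1) := by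
          rw [e]
          have := hh v hv
          positivity
        exact nonneg_of_mul_nonneg_left this hXn
    have hp0 : 0 < β v₀ := by
      rcases le_or_gt X (h v₀) with hXh | hXh
      · linarith [(hD.used v₀ hv₀ hXh).1]
      · have e := hD.unused v₀ hv₀ hXh
        have : 0 < β v₀ * X ^ (n + 1) := by
          rw [e]
          have := hh v₀ hv₀
          positivity
        exact (pos_iff_pos_of_mul_pos this).2 hXn
    exact lt_of_lt_of_le hp0 (Finset.single_le_sum (f := β) hnn hv₀)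
  rcases q3 with ⟨_, q4⟩ | ⟨_, q4⟩
  · exact absurd q4 hpos.ne'
  · exact h2 n _ _ _ _ (X - (4 * n + 5)) hpos le_rfl parts (q4 _ (by linarith))

theorem t_RecS (h1 : S_PSadd) (h2 : S_PSmono) (h3 : S_PSnode) : S_RecS := by
  intro n Λ C hn hΛ hC hStep hFin
  have main : ∀ j : ℕ, ∀ (A : Finset ℕ) (r : ℕ → ℕ) (β h : ℕ → ℝ) (X : ℝ),
      X ≤ 2 ^ j * (24 * (1 + Λ)) → Data n Λ A β h X →
      (∀ v ∈ A, r v = 0 ∨
        r v * gg n v ^ (n + 1) + C * (min X (h v)) ^ n ≤ β v * X ^ (n + 1)) →
      PS n (∑ v ∈ A, Multiset.replicate (r v) v) (∑ v ∈ A, β v) (X - (4 * n + 5)) := by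
    intro j
    induction j with
    | zero =>
      intro A r β h X hX hD hr
      refine one_step h1 h2 h3 n Λ C hn hΛ hC hStep hFin A r β h X hD hr fun hc => ?_
      rw [pow_zero, one_mul] at hX
      exact absurd hX (not_le.2 hc)
    | succ j ih =>
      intro A r β h X hX hD hr
      refine one_step h1 h2 h3 n Λ C hn hΛ hC hStep hFin A r β h X hD hr
        fun _ A' r' β' hD' hr' => ?_
      refine ih A' r' β' h (X / 2) ?_ hD' hr'
      rw [pow_succ] at hX
      linarith
  intro A r β h X hD hr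
  obtain ⟨j, hj⟩ := pow_unbounded_of_one_lt X (by norm_num : (1 : ℝ) < 2)
  refine main j A r β h X ?_ hD hr
  have : (0 : ℝ) < 2 ^ j := by positivity
  nlinarith

end Pool.Agent.H297.BG
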