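import Pool.Agent.H354.BG.Stm

/-!
# Second component of the action; values of syllables (BG-SND, BG-VRHO, helper297)
-/

set_option autoImplicit false

namespace Pool.Agent.H297.BG.SND

open Pool.Agent.H482R3.EA (W inv ev PP xx evF cond1 cond2 Syl gOf Sys St Near InD Adm Act)
open Pool.Agent.H482R3.EB (tot wp alt rels AR gR TR Tame Symm alt_length)
open Pool.Agent.H354.BG

theorem run_cons (D : Dat) (U : Finset (Fin D.r)) (b : Fin D.r) (h : SysOK D U b)
    (A : Act (sysX D U b h)) (a : Fin D.n × Bool) (u : W (Fin D.n)) (x : A.Ω × D.A) :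
    runX D U b h A (a :: u) x = runX D U b h A u (stepX D U b h A x a) := rfl

theorem rhoP_out (D : Dat) (b : Fin D.r) (a : Fin D.n × Bool) (ha : D.β a.1 ≠ b) :
    (rhoP D b (lt D a) : par D {b}) = 1 := by
  apply Subtype.ext
  show rho D {b} (lt D a) = 1
  rw [rho_lt, if_neg (by rw [Finset.mem_singleton]; exact ha)]

theorem step_out (D : Dat) (U : Finset (Fin D.r)) (b : Fin D.r) (h : SysOK D U b)
    (A : Act (sysX D U b h)) (a : Fin D.n × Bool) (ha : D.β a.1 ≠ b) (x : A.Ω × D.A) :
    stepX D U b h A x a = (x.1, x.2 * lt D a) := by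
  unfold stepX
  have h1 : A.act x.1 (Sum.inl (QuotientGroup.mk x.2) : Ln D U b)
      (rhoP D b (lt D a) : par D {b}) = x.1 := by
    rw [rhoP_out D b a ha]
    exact A.act_one x.1 _
  have h2 : rho D {b}ᶜ (lt D a) = lt D a := by
    rw [rho_lt, if_pos (by rw [Finset.mem_compl, Finset.mem_singleton]; exact ha)]
  exact Prod.ext h1 (by show x.2 * rho D {b}ᶜ (lt D a) = x.2 * lt D a; rw [h2])

theorem t_SND : S_SND := by
  intro D U b h A u x
  refine ⟨?_, ?_, ?_⟩
  · induction u generalizing x with
    | nil =>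
      show x.2 = x.2 * rho D {b}ᶜ (gEl D [])
      rw [gEl_nil, map_one, mul_one]
    | cons a u ih =>
      rw [run_cons, ih, gEl_cons, map_mul, ← mul_assoc]
      rfl
  · induction u generalizing x with
    | nil =>
      intro _
      show x = (x.1, x.2 * gEl D [])
      rw [gEl_nil, mul_one]
    | cons a u ih =>
      intro hu
      rw [run_cons, step_out D U b h A a (hu a List.mem_cons_self) x,
        ih _ (fun c hc => hu c (List.mem_cons_of_mem _ hc)), gEl_cons, mul_assoc]
  · intro u'
    unfold runX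
    rw [List.foldl_append]

/-- the letters of a cross line word -/
theorem let_val (D : Dat) (k : ℕ) (v w : Fin D.n) (a : ℕ × Bool) :
    gEl D (letF D k v w a) =
      gR D.m w ^ (a.1 % k) * lt D (v, a.2) * (gR D.m w ^ (a.1 % k))⁻¹ := by
  unfold letF
  rw [gEl_append, gEl_append, gEl_repl, gEl_repl, gEl_single, lt_true, lt_false, inv_pow]

theorem conj_val (D : Dat) (U : Finset (Fin D.r)) (b : Fin D.r) (g : W (Fin D.n)) (Y : D.A)
    (h1 : rho D (insert b U) Y = Y) (h2 : rho D U Y = 1) :
    rho D (insert b U) (gEl D (flt D U g) * Y * gEl D (inv (flt D U g))) =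
        gEl D (flt D U g) * Y * gEl D (inv (flt D U g)) ∧
      rho D U (gEl D (flt D U g) * Y * gEl D (inv (flt D U g))) = 1 := by
  have e1 : gEl D (flt D U g) = rho D U (gEl D g) := (rho_gEl D U g).symm
  have e2 : rho D (insert b U) (rho D U (gEl D g)) = rho D U (gEl D g) :=
    rho_rho_sub' D (Finset.subset_insert b U) _
  have e3 : rho D U (rho D U (gEl D g)) = rho D U (gEl D g) :=
    rho_rho_sub' D (Finset.Subset.refl U) _
  rw [gEl_inv, e1]
  refine ⟨?_, ?_⟩
  · rw [map_mul, map_mul, map_inv, e2, h1]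
  · rw [map_mul, map_mul, map_inv, e3, h2, mul_one, mul_inv_cancel]

theorem t_VRHO : S_VRHO := by
  intro D U b hb a ha
  have hbi : b ∈ insert b U := Finset.mem_insert_self b U
  rcases a with ⟨g, v, s, n⟩ | ⟨g, y⟩ | ⟨g, v, w, y⟩
  · have hv : D.β v = b := ha
    show rho D (insert b U) (gEl D (flt D U g ++ List.replicate n (v, s) ++ inv (flt D U g))) =
      gEl D (flt D U g ++ List.replicate n (v, s) ++ inv (flt D U g)) ∧
      rho D U (gEl D (flt D U g ++ List.replicate n (v, s) ++ inv (flt D U g))) = 1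
    rw [gEl_append, gEl_append]
    refine conj_val D U b g _ ?_ ?_
    · rw [gEl_repl, map_pow, rho_lt, if_pos (by show D.β v ∈ insert b U; rw [hv]; exact hbi)]
    · rw [gEl_repl, map_pow, rho_lt, if_neg (by show ¬ D.β v ∈ U; rw [hv]; exact hb), one_pow]
  · show rho D (insert b U) (gEl D (flt D U g ++ flt D {b} y ++ inv (flt D U g))) =
      gEl D (flt D U g ++ flt D {b} y ++ inv (flt D U g)) ∧
      rho D U (gEl D (flt D U g ++ flt D {b} y ++ inv (flt D U g))) = 1
    rw [gEl_append, gEl_append]
    refine conj_val D U b g _ ?_ ?_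
    · rw [← rho_gEl]
      exact rho_rho_sub' D (Finset.singleton_subset_iff.2 hbi) _
    · rw [← rho_gEl, rho_rho]
      have : U ∩ {b} = ∅ := by
        rw [Finset.inter_singleton_of_notMem hb]
      rw [this, rho_empty]
  · have hok : okL D U b v w := ha
    clear ha
    obtain ⟨hv, hw, _⟩ := hok
    show rho D (insert b U) (gEl D (flt D U g ++ y.flatMap (letF D (kk D v w) v w) ++
        inv (flt D U g))) =
      gEl D (flt D U g ++ y.flatMap (letF D (kk D v w) v w) ++ inv (flt D U g)) ∧
      rho D U (gEl D (flt D U g ++ y.flatMap (letF D (kk D v w) v w) ++ inv (flt D U g))) = 1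
    rw [gEl_append, gEl_append]
    have key : rho D (insert b U) (gEl D (y.flatMap (letF D (kk D v w) v w))) =
        gEl D (y.flatMap (letF D (kk D v w) v w)) ∧
        rho D U (gEl D (y.flatMap (letF D (kk D v w) v w))) = 1 := by
      induction y with
      | nil => exact ⟨map_one _, map_one _⟩
      | cons c y ih =>
        rw [List.flatMap_cons, gEl_append, map_mul, map_mul, ih.1, ih.2, let_val]
        refine ⟨?_, ?_⟩
        · rw [map_mul, map_mul, map_inv, map_pow, rho_gR, rho_lt,
            if_pos (Finset.mem_insert_of_mem hw),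
            if_pos (by show D.β v ∈ insert b U; rw [hv]; exact hbi)]
        · rw [map_mul, map_mul, map_inv, map_pow, rho_gR, rho_lt, if_pos hw,
            if_neg (by show ¬ D.β v ∈ U; rw [hv]; exact hb), mul_one, mul_one, mul_inv_cancel]
    exact conj_val D U b g _ key.1 key.2

end Pool.Agent.H297.BG.SND
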